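import Pool.Agent.P.MP_1ad12f_an.Upper
import Pool.Agent.P.MP_1ad12f_an.Lower

set_option autoImplicit false

namespace Pool.Agent.Results.MP_1ad12f_an.TestNumber

open Pool.Agent.P.MP_1ad12f_an

/-- The least number of real bandlimited functions on `ℝ^d` that detect affine maps is `d + 1`. -/
theorem result (d : ℕ) (hd : 1 ≤ d) :
    IsLeast {k : ℕ | ∃ f : Fin k → E d → ℝ, TestFamily f} (d + 1) := by
  refine ⟨⟨fam d, upper d⟩, ?_⟩
  rintro k ⟨f, h1, h2⟩
  by_contra h
  rcases k with _ | m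
  · obtain ⟨γ, c1, c2, c3, -⟩ := lower (m := 0) hd (f := fun _ => fam d 0)
      fun _ => fam_bandlimited 0
    exact c3 (h2 γ c1 c2 fun i => i.elim0)
  · obtain ⟨γ, c1, c2, c3, c4⟩ := lower (m := m) (by omega) h1
    exact c3 (h2 γ c1 c2 c4)

end Pool.Agent.Results.MP_1ad12f_an.TestNumber
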